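import Mathlib
import Pool.Agent.Q72.Green.Equi
import Pool.Agent.Q72.Green.Unif

/-!
# Green functions with colliding poles: `L¹_loc` convergence is locally uniform off the origin

The definitions (`IsPSH`, `IsHyperconvex`, `greenFamily`, `green`) are in
`Pool.Agent.Q72.Psh.Defs` and `Pool.Agent.Q72.Green.Defs`.
-/

set_option autoImplicit false

open Metric Set Filter Topology MeasureTheory

namespace Pool.Agent.Results.MP_eb85ab_an.AutomaticUniform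

open Q72.Green

lemma green_nonpos {E : Type*} [NormedAddCommGroup E] [NormedSpace ℂ E] {Ω S : Set E} {z : E}
    (hz : z ∈ Ω) : green Ω S z ≤ 0 :=
  iSup₂_le fun _ hu => (hu.2.1 z hz).le

lemma green_coe {E : Type*} [NormedAddCommGroup E] [NormedSpace ℂ E] {Ω S : Set E} {z : E}
    (hz : z ∈ Ω) (h : ⊥ < green Ω S z) :
    (((green Ω S z).toReal : ℝ) : EReal) = green Ω S z :=
  EReal.coe_toReal (lt_of_le_of_lt (green_nonpos hz) EReal.zero_lt_top).ne h.ne'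

/-- **Answer to Q1 (negative).** For every bounded hyperconvex domain `Ω ⊂ ℂⁿ` containing `0` and
every family `S ε` of `N` distinct points tending to `0`: if the Green functions with poles
`S ε` converge in `L¹_loc(Ω)` to a function `g`, then `g` agrees almost everywhere with a function
that is continuous on `Ω ∖ {0}`, and the convergence is uniform on every compact subset of
`Ω ∖ {0}`. -/
theorem result (n N : ℕ) (hN : 1 ≤ N) (Ω : Set (Fin n → ℂ)) (hΩ : IsHyperconvex Ω)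
    (h0 : (0 : Fin n → ℂ) ∈ Ω) (S : ℝ → Finset (Fin n → ℂ))
    (hcard : ∀ᶠ ε in 𝓝[>] (0 : ℝ), (S ε).card = N)
    (hlim : ∀ U ∈ 𝓝 (0 : Fin n → ℂ), ∀ᶠ ε in 𝓝[>] (0 : ℝ), (S ε : Set (Fin n → ℂ)) ⊆ U)
    (g : (Fin n → ℂ) → ℝ)
    (hL1 : ∀ K ⊆ Ω, IsCompact K →
      (∀ᶠ ε in 𝓝[>] (0 : ℝ), IntegrableOn (fun z => (green Ω (S ε) z).toReal) K) ∧
      IntegrableOn g K ∧
      Tendsto (fun ε => ∫ z in K, |(green Ω (S ε) z).toReal - g z|) (𝓝[>] (0 : ℝ)) (𝓝 0)) :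
    ∃ g' : (Fin n → ℂ) → ℝ, ContinuousOn g' (Ω \ {0}) ∧
      (∀ᵐ z ∂(volume.restrict (Ω \ {0})), g' z = g z) ∧
      ∀ K ⊆ Ω \ {0}, IsCompact K →
        (∀ᶠ ε in 𝓝[>] (0 : ℝ), ∀ z ∈ K, ⊥ < green Ω (S ε) z ∧ green Ω (S ε) z ≤ 0) ∧
        TendstoUniformlyOn (fun ε z => (green Ω (S ε) z).toReal) g' (𝓝[>] (0 : ℝ)) K := by
  have hop : IsOpen Ω := hΩ.1
  have hU : IsOpen (Ω \ {0}) := hop.sdiff isClosed_singleton
  -- the local estimate
  have hloc : ∀ x0 ∈ Ω \ {0}, ∀ η > 0, ∃ δ > 0, ball x0 δ ⊆ Ω \ {0} ∧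
      ∀ᶠ ε in 𝓝[>] (0 : ℝ), (∀ x ∈ ball x0 δ, ⊥ < green Ω (S ε) x) ∧
        ∀ x ∈ ball x0 δ, ∀ y ∈ ball x0 δ,
          (green Ω (S ε) y).toReal ≤ (green Ω (S ε) x).toReal + η := by
    intro x0 hx0 η hη
    obtain ⟨δ1, hδ1, τ, hτ, hsub, hmain⟩ := green_le_add hΩ h0 hN hx0.1
      (fun h => hx0.2 (mem_singleton_iff.2 h)) hη
    obtain ⟨δ2, hδ2, hsub2⟩ := Metric.isOpen_iff.1 hU x0 hx0
    refine ⟨min δ1 δ2, lt_min hδ1 hδ2, (ball_subset_ball (min_le_right _ _)).trans hsub2, ?_⟩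
    filter_upwards [hcard, hlim (ball 0 τ) (ball_mem_nhds 0 hτ)] with ε hε1 hε2
    obtain ⟨h1, h2⟩ := hmain (S ε) hε1 hε2
    have hs : ball x0 (min δ1 δ2) ⊆ ball x0 δ1 := ball_subset_ball (min_le_left _ _)
    refine ⟨fun x hx => (h1 x (hs hx)).2, fun x hx y hy => ?_⟩
    have h3 := h2 x (hs hx) y (hs hy)
    rw [← green_coe (hsub (hs hx)) (h1 x (hs hx)).2, ← green_coe (hsub (hs hy)) (h1 y (hs hy)).2,
      ← EReal.coe_add, EReal.coe_le_coe_iff] at h3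
    exact h3
  obtain ⟨g', hg1, hg2, hg3⟩ := loc_unif (volume : Measure (Fin n → ℂ)) (l := 𝓝[>] (0 : ℝ)) hU
    (fun ε z => (green Ω (S ε) z).toReal) g
    (fun x0 hx0 η hη => by
      obtain ⟨δ, hδ, hs, hev⟩ := hloc x0 hx0 η hη
      exact ⟨δ, hδ, hs, hev.mono fun ε hε => hε.2⟩)
    (fun K hK hKc => hL1 K (hK.trans sdiff_subset) hKc)
  refine ⟨g', hg1, hg3, fun K hK hKc => ⟨?_, hg2 K hK hKc⟩⟩
  -- finiteness on compact sets
  have h1 : ∀ x ∈ K, ∃ t ∈ 𝓝[K] x, ∀ᶠ ε in 𝓝[>] (0 : ℝ), ∀ z ∈ t,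
      z ∈ Ω → ⊥ < green Ω (S ε) z ∧ green Ω (S ε) z ≤ 0 := by
    intro x hx
    obtain ⟨δ, hδ, hs, hev⟩ := hloc x (hK hx) 1 one_pos
    refine ⟨ball x δ, mem_nhdsWithin_of_mem_nhds (ball_mem_nhds x hδ), ?_⟩
    filter_upwards [hev] with ε hε z hz hzΩ
    exact ⟨hε.1 z hz, green_nonpos hzΩ⟩
  have h2 : ∀ᶠ ε in 𝓝[>] (0 : ℝ), ∀ z ∈ K,
      z ∈ Ω → ⊥ < green Ω (S ε) z ∧ green Ω (S ε) z ≤ 0 := by
    refine hKc.induction_on (p := fun t => ∀ᶠ ε in 𝓝[>] (0 : ℝ), ∀ z ∈ t,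
      z ∈ Ω → ⊥ < green Ω (S ε) z ∧ green Ω (S ε) z ≤ 0) ?_ ?_ ?_ h1
    · exact Eventually.of_forall fun ε z hz => absurd hz (notMem_empty z)
    · intro s t hst ht
      exact ht.mono fun ε hε z hz => hε z (hst hz)
    · intro s t hs ht
      filter_upwards [hs, ht] with ε h1 h2 z hz
      rcases hz with hz | hz
      · exact h1 z hz
      · exact h2 z hz
  exact h2.mono fun ε hε z hz => hε z hz (hK hz).1

end Pool.Agent.Results.MP_eb85ab_an.AutomaticUniform
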